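import Mathlib

/-! Counting monomials in variables of weights `1, 3, 5, …`: for a fixed `n`, most monomials of weight
at most `N` have a large part of their weight in the variables of index at most `n`. -/

set_option autoImplicit false

open Finset

namespace Pool.Agent.Q217.ZO

/-- exponent vectors -/
abbrev Mon := ℕ →₀ ℕ

/-- the weight: the variable with index `k` has weight `2 k + 1` -/
def wt (a : Mon) : ℕ := a.sum fun k m => m * (2 * k + 1)

theorem wt_zero : wt 0 = 0 := Finsupp.sum_zero_index

theorem wt_add (a b : Mon) : wt (a + b) = wt a + wt b := by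
  unfold wt
  exact Finsupp.sum_add_index' (fun _ => by simp) (fun _ _ _ => by ring)

theorem wt_single (k m : ℕ) : wt (Finsupp.single k m) = m * (2 * k + 1) :=
  Finsupp.sum_single_index (by simp)

theorem le_wt (a : Mon) (k : ℕ) : a k * (2 * k + 1) ≤ wt a := by
  by_cases h : k ∈ a.support
  · exact Finset.single_le_sum (f := fun k => a k * (2 * k + 1)) (fun _ _ => Nat.zero_le _) h
  · rw [Finsupp.notMem_support_iff] at h
    rw [h]
    simp

theorem wt_eq_sum (a : Mon) (s : Finset ℕ) (h : a.support ⊆ s) :
    wt a = ∑ k ∈ s, a k * (2 * k + 1) :=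
  Finsupp.sum_of_support_subset a h _ (fun _ _ => by simp)

/-- the exponent vectors of weight at most `N` -/
noncomputable def mons (N : ℕ) : Finset Mon :=
  ((range (N + 1)).finsupp fun _ => range (N + 1)).filter fun a => wt a ≤ N

theorem bounds {N : ℕ} {a : Mon} (h : wt a ≤ N) :
    a.support ⊆ range (N + 1) ∧ ∀ k, a k ≤ N := by
  refine ⟨fun k hk => ?_, fun k => ?_⟩
  · have h1 := le_wt a k
    have h2 : 1 ≤ a k := Nat.one_le_iff_ne_zero.2 (Finsupp.mem_support_iff.1 hk)
    rw [mem_range]
    nlinarith
  · have h1 := le_wt a k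
    nlinarith

theorem mem_mons {N : ℕ} {a : Mon} : a ∈ mons N ↔ wt a ≤ N := by
  unfold mons
  rw [Finset.mem_filter, Finset.mem_finsupp_iff]
  refine ⟨fun h => h.2, fun h => ⟨⟨(bounds h).1, fun k _ => ?_⟩, h⟩⟩
  rw [mem_range]
  have := (bounds h).2 k
  omega

/-- all variables have an index `≤ n` -/
def IsLow (n : ℕ) (a : Mon) : Prop := ∀ k, n < k → a k = 0

/-- all variables have an index `> n` -/
def IsHigh (n : ℕ) (a : Mon) : Prop := ∀ k, k ≤ n → a k = 0

open Classical in
/-- low vectors of weight at most `m` -/
noncomputable def low (n m : ℕ) : Finset Mon := (mons m).filter (IsLow n)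

open Classical in
/-- high vectors of weight at most `N` -/
noncomputable def high (n N : ℕ) : Finset Mon := (mons N).filter (IsHigh n)

theorem mem_low {n m : ℕ} {a : Mon} : a ∈ low n m ↔ wt a ≤ m ∧ IsLow n a := by
  classical
  simp [low, mem_mons]

theorem mem_high {n N : ℕ} {a : Mon} : a ∈ high n N ↔ wt a ≤ N ∧ IsHigh n a := by
  classical
  simp [high, mem_mons]

theorem split (n : ℕ) (a : Mon) : ∃ u b : Mon, IsHigh n u ∧ IsLow n b ∧ a = u + b := by
  classical
  refine ⟨a.filter (fun k => n < k), a.filter (fun k => ¬ n < k), fun k hk => ?_, fun k hk => ?_, ?_⟩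
  · exact Finsupp.filter_apply_neg _ _ (by omega)
  · exact Finsupp.filter_apply_neg _ _ (by omega)
  · exact (Finsupp.filter_add_filter_not a _).symm

theorem sum_low_le (n N : ℕ) :
    ∑ u ∈ high n N, (low n (N - wt u)).card ≤ (mons N).card := by
  classical
  rw [← Finset.card_sigma]
  refine Finset.card_le_card_of_injOn (fun p : (_ : Mon) × Mon => p.1 + p.2) ?_ ?_
  · rintro ⟨u, b⟩ h
    rw [Finset.mem_coe, Finset.mem_sigma, mem_high, mem_low] at h
    rw [Finset.mem_coe, mem_mons, wt_add]
    have h1 := h.1.1
    have h2 := h.2.1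
    dsimp only at *
    omega
  · rintro ⟨u, b⟩ h ⟨u', b'⟩ h' he
    rw [Finset.mem_coe, Finset.mem_sigma, mem_high, mem_low] at h h'
    dsimp only at he h h'
    have key : ∀ k, u k = u' k ∧ b k = b' k := by
      intro k
      have h1 := DFunLike.congr_fun he k
      rw [Finsupp.add_apply, Finsupp.add_apply] at h1
      by_cases hk : k ≤ n
      · rw [h.1.2 k hk, h'.1.2 k hk] at h1 ⊢
        omega
      · rw [h.2.2 k (by omega), h'.2.2 k (by omega)] at h1 ⊢
        omega
    have e1 : u = u' := Finsupp.ext fun k => (key k).1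
    have e2 : b = b' := Finsupp.ext fun k => (key k).2
    rw [e1, e2]

/-- the constant in the count of low vectors -/
def cD (n : ℕ) : ℕ := (n + 1) * (2 * n + 1)

theorem cD_pos (n : ℕ) : 0 < cD n := by
  unfold cD
  positivity

theorem pow_le_low (n m : ℕ) : (m + 1) ^ (n + 1) ≤ cD n ^ (n + 1) * (low n m).card := by
  have h1 : (range (n + 1)).finsupp (fun _ => range (m / cD n + 1)) ⊆ low n m := by
    intro a ha
    rw [Finset.mem_finsupp_iff] at ha
    rw [mem_low]
    refine ⟨?_, fun k hk => ?_⟩
    · rw [wt_eq_sum a _ ha.1]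
      calc ∑ k ∈ range (n + 1), a k * (2 * k + 1)
          ≤ ∑ _k ∈ range (n + 1), (m / cD n) * (2 * n + 1) := by
            refine Finset.sum_le_sum fun k hk => ?_
            have h2 := ha.2 k hk
            rw [mem_range] at h2 hk
            exact Nat.mul_le_mul (by omega) (by omega)
        _ = (m / cD n) * cD n := by
            rw [Finset.sum_const, Finset.card_range, smul_eq_mul]
            unfold cD
            ring
        _ ≤ m := Nat.div_mul_le_self _ _
    · by_contra hne
      have := ha.1 (Finsupp.mem_support_iff.2 hne)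
      rw [mem_range] at this
      omega
  have h2 := Finset.card_le_card h1
  rw [Finset.card_finsupp, Finset.prod_const, Finset.card_range, Finset.card_range] at h2
  have h3 : m + 1 ≤ cD n * (m / cD n + 1) := by
    have := Nat.lt_mul_div_succ m (cD_pos n)
    omega
  calc (m + 1) ^ (n + 1) ≤ (cD n * (m / cD n + 1)) ^ (n + 1) := Nat.pow_le_pow_left h3 _
    _ = cD n ^ (n + 1) * (m / cD n + 1) ^ (n + 1) := mul_pow _ _ _
    _ ≤ _ := Nat.mul_le_mul_left _ h2

theorem two_pow_le (L N : ℕ) (h : L * L ≤ N) : 2 ^ L ≤ (mons N).card := by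
  have h1 : (range L).finsupp (fun _ => range 2) ⊆ mons N := by
    intro a ha
    rw [Finset.mem_finsupp_iff] at ha
    rw [mem_mons, wt_eq_sum a _ ha.1]
    have h2 : ∑ k ∈ range L, a k * (2 * k + 1) ≤ ∑ k ∈ range L, (2 * k + 1) := by
      refine Finset.sum_le_sum fun k hk => ?_
      have h2 := ha.2 k hk
      rw [mem_range] at h2
      calc a k * (2 * k + 1) ≤ 1 * (2 * k + 1) := Nat.mul_le_mul_right _ (by omega)
        _ = _ := one_mul _
    have h3 : ∑ k ∈ range L, (2 * k + 1) = L * L := by
      clear h2 ha h
      induction L with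
      | zero => simp
      | succ L ih =>
        rw [Finset.sum_range_succ, ih]
        ring
    omega
  have h2 := Finset.card_le_card h1
  rwa [Finset.card_finsupp, Finset.prod_const, Finset.card_range, Finset.card_range] at h2

/-- vectors with at most `R` different variables -/
noncomputable def few (N R : ℕ) : Finset Mon := (mons N).filter fun u => u.support.card ≤ R

theorem card_few (N R : ℕ) : (few N R).card ≤ ((N + 1) ^ 2) ^ R := by
  classical
  induction R with
  | zero =>
    rw [pow_zero, Finset.card_le_one]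
    intro a ha b hb
    unfold few at ha hb
    rw [Finset.mem_filter, Nat.le_zero, Finset.card_eq_zero, Finsupp.support_eq_empty] at ha hb
    rw [ha.2, hb.2]
  | succ R ih =>
    have h1 : few N (R + 1) ⊆ (few N R ×ˢ (range (N + 1) ×ˢ range (N + 1))).image
        (fun p : Mon × (ℕ × ℕ) => p.1 + Finsupp.single p.2.1 p.2.2) := by
      intro u hu
      unfold few at hu
      rw [Finset.mem_filter, mem_mons] at hu
      rw [Finset.mem_image]
      rcases u.support.eq_empty_or_nonempty with h0 | ⟨k, hk⟩
      · refine ⟨(0, (0, 0)), ?_, ?_⟩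
        · rw [Finset.mem_product, Finset.mem_product]
          refine ⟨?_, by simp, by simp⟩
          unfold few
          rw [Finset.mem_filter, mem_mons, wt_zero]
          simp
        · rw [Finsupp.support_eq_empty] at h0
          simp [h0]
      · refine ⟨(u.erase k, (k, u k)), ?_, Finsupp.erase_add_single k u⟩
        rw [Finset.mem_product, Finset.mem_product]
        have hb := bounds hu.1
        refine ⟨?_, hb.1 hk, ?_⟩
        · unfold few
          rw [Finset.mem_filter, mem_mons]
          constructor
          · have h2 := wt_add (u.erase k) (Finsupp.single k (u k))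
            rw [Finsupp.erase_add_single] at h2
            dsimp only
            omega
          · rw [Finsupp.support_erase, Finset.card_erase_of_mem hk]
            omega
        · rw [mem_range]
          have := hb.2 k
          show u k < N + 1
          omega
    calc (few N (R + 1)).card ≤ _ := Finset.card_le_card h1
      _ ≤ (few N R ×ˢ (range (N + 1) ×ˢ range (N + 1))).card := Finset.card_image_le
      _ = (few N R).card * ((N + 1) * (N + 1)) := by
          rw [Finset.card_product, Finset.card_product, Finset.card_range]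
      _ ≤ ((N + 1) ^ 2) ^ R * ((N + 1) * (N + 1)) := Nat.mul_le_mul_right _ ih
      _ = _ := by ring

/-- removing a part -/
theorem remove (n N K : ℕ) (hK : 1 ≤ K) :
    ((high n N).filter fun u => N < wt u + K ∧ 2 * K ≤ u.support.card).card ≤
      ((high n N).filter fun u => wt u + K ≤ N).card := by
  classical
  set G := (high n N).filter fun u => N < wt u + K ∧ 2 * K ≤ u.support.card with hG
  set H := (high n N).filter fun u => wt u + K ≤ N with hH
  have h1 : G.card * K ≤ (G.sigma fun u => u.support.filter (K ≤ ·)).card := by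
    rw [Finset.card_sigma, ← smul_eq_mul, ← Finset.sum_const]
    refine Finset.sum_le_sum fun u hu => ?_
    rw [hG, Finset.mem_filter] at hu
    have h2 : (u.support.filter (fun i => ¬ K ≤ i)).card ≤ K := by
      have h3 : u.support.filter (fun i => ¬ K ≤ i) ⊆ range K := by
        intro i hi
        rw [Finset.mem_filter] at hi
        rw [mem_range]
        omega
      simpa using Finset.card_le_card h3
    have h3 := Finset.card_filter_add_card_filter_not (s := u.support) (fun i => K ≤ i)
    have h4 := hu.2.2
    omega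
  have h2 : (G.sigma fun u => u.support.filter (K ≤ ·)).card ≤ (H ×ˢ range K).card := by
    refine Finset.card_le_card_of_injOn
      (fun p : (_ : Mon) × ℕ => (p.1 - Finsupp.single p.2 1, N - wt p.1)) ?_ ?_
    · rintro ⟨u, i⟩ h
      rw [Finset.mem_coe, Finset.mem_sigma, hG, Finset.mem_filter, Finset.mem_filter, mem_high] at h
      obtain ⟨⟨⟨hu1, hu2⟩, hu3, hu4⟩, hi1, hi2⟩ := h
      dsimp only at *
      rw [Finset.mem_coe, Finset.mem_product, hH, Finset.mem_filter, mem_high, mem_range]
      have hi3 : 1 ≤ u i := Nat.one_le_iff_ne_zero.2 (Finsupp.mem_support_iff.1 hi1)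
      have e : u - Finsupp.single i 1 + Finsupp.single i 1 = u := by
        ext k
        rw [Finsupp.add_apply, Finsupp.tsub_apply, Finsupp.single_apply]
        split_ifs with hk
        · subst hk
          omega
        · omega
      have e2 : wt (u - Finsupp.single i 1) + (2 * i + 1) = wt u := by
        conv_rhs => rw [← e]
        rw [wt_add, wt_single, one_mul]
      dsimp only
      refine ⟨⟨⟨by omega, fun k hk => ?_⟩, by omega⟩, by omega⟩
      rw [Finsupp.tsub_apply, hu2 k hk, Nat.zero_sub]
    · rintro ⟨u, i⟩ h ⟨u', i'⟩ h' he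
      rw [Finset.mem_coe, Finset.mem_sigma, hG, Finset.mem_filter, Finset.mem_filter, mem_high] at h h'
      obtain ⟨⟨⟨hu1, hu2⟩, hu3, hu4⟩, hi1, hi2⟩ := h
      obtain ⟨⟨⟨hu1', hu2'⟩, hu3', hu4'⟩, hi1', hi2'⟩ := h'
      dsimp only at *
      rw [Prod.mk.injEq] at he
      obtain ⟨he1, he2⟩ := he
      have sub_add : ∀ (v : Mon) (j : ℕ), j ∈ v.support →
          v - Finsupp.single j 1 + Finsupp.single j 1 = v := by
        intro v j hj
        have hi3 : 1 ≤ v j := Nat.one_le_iff_ne_zero.2 (Finsupp.mem_support_iff.1 hj)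
        ext k
        rw [Finsupp.add_apply, Finsupp.tsub_apply, Finsupp.single_apply]
        split_ifs with hk
        · subst hk
          omega
        · omega
      have e1 : wt (u - Finsupp.single i 1) + (2 * i + 1) = wt u := by
        conv_rhs => rw [← sub_add u i hi1]
        rw [wt_add, wt_single, one_mul]
      have e1' : wt (u' - Finsupp.single i' 1) + (2 * i' + 1) = wt u' := by
        conv_rhs => rw [← sub_add u' i' hi1']
        rw [wt_add, wt_single, one_mul]
      rw [he1] at e1
      have e3 : i = i' := by omega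
      have e4 : u = u' := by
        rw [← sub_add u i hi1, ← sub_add u' i' hi1', he1, e3]
      rw [e3, e4]
  rw [Finset.card_product, Finset.card_range] at h2
  exact Nat.le_of_mul_le_mul_right (h1.trans h2) hK

theorem key (n N K s t : ℕ) (hK : 1 ≤ K) (hst : s + t = n + 1) :
    K ^ t * ∑ u ∈ high n N, (N - wt u + 1) ^ s ≤
      2 * (cD n ^ (n + 1) * (mons N).card) + K ^ (n + 1) * (N + 1) ^ (4 * K) := by
  classical
  have hM : ∑ u ∈ high n N, (N - wt u + 1) ^ (n + 1) ≤ cD n ^ (n + 1) * (mons N).card := by
    calc ∑ u ∈ high n N, (N - wt u + 1) ^ (n + 1)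
        ≤ ∑ u ∈ high n N, cD n ^ (n + 1) * (low n (N - wt u)).card :=
          Finset.sum_le_sum fun u _ => pow_le_low n _
      _ = cD n ^ (n + 1) * ∑ u ∈ high n N, (low n (N - wt u)).card := (Finset.mul_sum _ _ _).symm
      _ ≤ _ := Nat.mul_le_mul_left _ (sum_low_le n N)
  set F := (high n N).filter fun u => wt u + K ≤ N with hF
  have hFM : ∑ u ∈ F, (N - wt u + 1) ^ (n + 1) ≤ cD n ^ (n + 1) * (mons N).card :=
    (Finset.sum_le_sum_of_subset (Finset.filter_subset _ _)).trans hM
  have hsplit := Finset.sum_filter_add_sum_filter_not (high n N) (fun u => wt u + K ≤ N)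
    (fun u => (N - wt u + 1) ^ s)
  rw [← hsplit, mul_add]
  have h1 : K ^ t * ∑ u ∈ F, (N - wt u + 1) ^ s ≤ cD n ^ (n + 1) * (mons N).card := by
    refine le_trans ?_ hFM
    rw [Finset.mul_sum]
    refine Finset.sum_le_sum fun u hu => ?_
    rw [hF, Finset.mem_filter] at hu
    rw [← hst, pow_add, mul_comm]
    exact Nat.mul_le_mul_left _ (Nat.pow_le_pow_left (by omega) _)
  have h2 : K ^ t * ∑ u ∈ (high n N).filter (fun u => ¬ wt u + K ≤ N), (N - wt u + 1) ^ s ≤
      K ^ (n + 1) * ((high n N).filter fun u => ¬ wt u + K ≤ N).card := by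
    rw [Finset.mul_sum, mul_comm (K ^ (n + 1)), ← smul_eq_mul (a := Finset.card _),
      ← Finset.sum_const]
    refine Finset.sum_le_sum fun u hu => ?_
    rw [Finset.mem_filter] at hu
    rw [← hst, pow_add, mul_comm]
    exact Nat.mul_le_mul_right _ (Nat.pow_le_pow_left (by omega) _)
  have h3 : ((high n N).filter fun u => ¬ wt u + K ≤ N).card ≤ F.card + (few N (2 * K)).card := by
    have h4 : (high n N).filter (fun u => ¬ wt u + K ≤ N) ⊆
        ((high n N).filter fun u => N < wt u + K ∧ 2 * K ≤ u.support.card) ∪ few N (2 * K) := by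
      intro u hu
      rw [Finset.mem_filter] at hu
      rw [Finset.mem_union]
      by_cases hc : 2 * K ≤ u.support.card
      · left
        rw [Finset.mem_filter]
        exact ⟨hu.1, by omega, hc⟩
      · right
        unfold few
        rw [Finset.mem_filter, mem_mons]
        exact ⟨(mem_high.1 hu.1).1, by omega⟩
    calc _ ≤ _ := Finset.card_le_card h4
      _ ≤ _ := Finset.card_union_le _ _
      _ ≤ _ := Nat.add_le_add_right (remove n N K hK) _
  have h4 : K ^ (n + 1) * F.card ≤ cD n ^ (n + 1) * (mons N).card := by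
    refine le_trans ?_ hFM
    rw [mul_comm, ← smul_eq_mul, ← Finset.sum_const]
    refine Finset.sum_le_sum fun u hu => ?_
    rw [hF, Finset.mem_filter] at hu
    exact Nat.pow_le_pow_left (by omega) _
  have h5 : (few N (2 * K)).card ≤ (N + 1) ^ (4 * K) := by
    refine (card_few N (2 * K)).trans (le_of_eq ?_)
    rw [← pow_mul]
    congr 1
    ring
  have h6 := Nat.mul_le_mul_left (K ^ (n + 1)) h3
  have h7 := Nat.mul_le_mul_left (K ^ (n + 1)) h5
  rw [mul_add] at h6
  calc _ ≤ cD n ^ (n + 1) * (mons N).card +
        K ^ (n + 1) * ((high n N).filter fun u => ¬ wt u + K ≤ N).card := Nat.add_le_add h1 h2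
    _ ≤ _ := by linarith

end Pool.Agent.Q217.ZO
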