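import Pool.Agent.Q217.ZO.Count

/-! The span of the monomials of bounded weight in finitely many elements of a field, some of which
are algebraic over the others. -/

set_option autoImplicit false

open Finset

namespace Pool.Agent.Q217.ZO

variable {F : Type*} [Field F] [Algebra ℚ F] (x : ℕ → F)

/-- the monomial with exponent vector `a` -/
def xm (a : Mon) : F := a.prod fun k m => x k ^ m

omit [Algebra ℚ F] in
theorem xm_zero : xm x 0 = 1 := Finsupp.prod_zero_index

omit [Algebra ℚ F] in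
theorem xm_add (a b : Mon) : xm x (a + b) = xm x a * xm x b := by
  unfold xm
  exact Finsupp.prod_add_index' (fun _ => pow_zero _) (fun _ _ _ => pow_add _ _ _)

omit [Algebra ℚ F] in
theorem xm_single (k m : ℕ) : xm x (Finsupp.single k m) = x k ^ m :=
  Finsupp.prod_single_index (pow_zero _)

/-- the span of the monomials with exponent vectors in `G` -/
def Sp (G : Set Mon) : Submodule ℚ F := Submodule.span ℚ (xm x '' G)

variable {x}

theorem mem_Sp {G : Set Mon} {a : Mon} (h : a ∈ G) : xm x a ∈ Sp x G :=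
  Submodule.subset_span ⟨a, h, rfl⟩

theorem Sp_mono {G G' : Set Mon} (h : G ⊆ G') : Sp x G ≤ Sp x G' :=
  Submodule.span_mono (Set.image_mono h)

theorem mul_mem {G G' G'' : Set Mon} (h : ∀ a ∈ G, ∀ b ∈ G', a + b ∈ G'') {v w : F}
    (hv : v ∈ Sp x G) (hw : w ∈ Sp x G') : v * w ∈ Sp x G'' := by
  have h1 : Sp x G * Sp x G' ≤ Sp x G'' := by
    unfold Sp
    rw [Submodule.span_mul_span]
    refine Submodule.span_mono ?_
    rintro _ ⟨_, ⟨a, ha, rfl⟩, _, ⟨b, hb, rfl⟩, rfl⟩
    exact ⟨a + b, h a ha b hb, xm_add x a b⟩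
  exact h1 (Submodule.mul_mem_mul hv hw)

theorem exists_sum {ι : Type*} (S : ℕ → Submodule ℚ F) (hS : Monotone S) (s : Finset ι) (z : ι → F)
    (h : ∀ i ∈ s, ∃ r, z i ∈ S r) : ∃ r, ∑ i ∈ s, z i ∈ S r := by
  classical
  choose! r hr using h
  exact ⟨s.sup r, Submodule.sum_mem _ fun i hi => hS (Finset.le_sup hi) (hr i hi)⟩

/-- monomials in the variables of `J`, all exponents `≤ r` -/
def Vs (J : Finset ℕ) (r : ℕ) : Set Mon := {a | (∀ k, k ∉ J → a k = 0) ∧ ∀ k, a k ≤ r}

/-- monomials in the variables of `J`, exponents `≤ r`, times `x_k ^ i`, `i < e` -/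
def Rs (J : Finset ℕ) (k e r : ℕ) : Set Mon :=
  {a | (∀ j, j ∉ J → j ≠ k → a j = 0) ∧ a k < e ∧ ∀ j ∈ J, a j ≤ r}

/-- monomials in the variables of index `≤ n`, exponents `≤ r` for those in `J`, `< e_k` for the
others -/
def Ws (n : ℕ) (J : Finset ℕ) (e : ℕ → ℕ) (r : ℕ) : Set Mon :=
  {a | (∀ k, n < k → a k = 0) ∧ (∀ k ∈ J, a k ≤ r) ∧ ∀ k, k ≤ n → k ∉ J → a k < e k}

theorem Vs_mono (J : Finset ℕ) : Monotone fun r => Sp x (Vs J r) := fun _ _ h =>
  Sp_mono fun _ ha => ⟨ha.1, fun k => (ha.2 k).trans h⟩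

theorem Rs_mono (J : Finset ℕ) (k e : ℕ) : Monotone fun r => Sp x (Rs J k e r) := fun _ _ h =>
  Sp_mono fun _ ha => ⟨ha.1, ha.2.1, fun k hk => (ha.2.2 k hk).trans h⟩

theorem Ws_mono (n : ℕ) (J : Finset ℕ) (e : ℕ → ℕ) : Monotone fun r => Sp x (Ws n J e r) :=
  fun _ _ h => Sp_mono fun _ ha => ⟨ha.1, fun k hk => (ha.2.1 k hk).trans h, ha.2.2⟩

theorem adj (J : Finset ℕ) {z : F} (hz : z ∈ Algebra.adjoin ℚ (x '' (J : Set ℕ))) :
    ∃ r, z ∈ Sp x (Vs J r) := by
  induction hz using Algebra.adjoin_induction with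
  | mem z hz =>
    obtain ⟨j, hj, rfl⟩ := hz
    refine ⟨1, ?_⟩
    rw [← pow_one (x j), ← xm_single]
    refine mem_Sp ⟨fun k hk => ?_, fun k => ?_⟩
    · rw [Finsupp.single_apply, if_neg]
      rintro rfl
      exact hk hj
    · rw [Finsupp.single_apply]
      split_ifs <;> omega
  | algebraMap c =>
    refine ⟨0, ?_⟩
    rw [Algebra.algebraMap_eq_smul_one, ← xm_zero x]
    exact Submodule.smul_mem _ _ (mem_Sp ⟨fun k _ => rfl, fun k => le_rfl⟩)
  | add a b _ _ ha hb =>
    obtain ⟨r, hr⟩ := ha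
    obtain ⟨s, hs⟩ := hb
    exact ⟨max r s, Submodule.add_mem _ (Vs_mono J (le_max_left r s) hr)
      (Vs_mono J (le_max_right r s) hs)⟩
  | mul a b _ _ ha hb =>
    obtain ⟨r, hr⟩ := ha
    obtain ⟨s, hs⟩ := hb
    refine ⟨r + s, mul_mem ?_ hr hs⟩
    rintro a ⟨h1, h2⟩ b ⟨h3, h4⟩
    exact ⟨fun k hk => by rw [Finsupp.add_apply, h1 k hk, h3 k hk],
      fun k => Nat.add_le_add (h2 k) (h4 k)⟩

/-- the relation of an algebraic element -/
theorem rel (J : Finset ℕ) (k : ℕ) (hkJ : k ∉ J)
    (h : IsAlgebraic (Algebra.adjoin ℚ (x '' (J : Set ℕ))) (x k)) :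
    ∃ (q : F) (e r : ℕ), q ∈ Algebra.adjoin ℚ (x '' (J : Set ℕ)) ∧ q ≠ 0 ∧ 1 ≤ e ∧
      q * x k ^ e ∈ Sp x (Rs J k e r) := by
  obtain ⟨p, hp, hpx⟩ := h
  have hl : ((p.leadingCoeff : Algebra.adjoin ℚ (x '' (J : Set ℕ))) : F) ≠ 0 := by
    intro h0
    exact hp (Polynomial.leadingCoeff_eq_zero.1 (Subtype.ext h0))
  rw [Polynomial.aeval_eq_sum_range, Finset.sum_range_succ] at hpx
  have hsmul : ∀ (c : Algebra.adjoin ℚ (x '' (J : Set ℕ))) (y : F), c • y = (c : F) * y :=
    fun c y => rfl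
  have h1 : ∃ r, ∑ i ∈ range p.natDegree, p.coeff i • x k ^ i ∈ Sp x (Rs J k p.natDegree r) := by
    refine exists_sum (fun r => Sp x (Rs J k p.natDegree r)) (Rs_mono J k _) _ _ ?_
    intro i hi
    rw [Finset.mem_range] at hi
    obtain ⟨r, hr⟩ := adj J (p.coeff i).2
    refine ⟨r, ?_⟩
    rw [hsmul, ← xm_single]
    refine mul_mem (G' := {Finsupp.single k i}) ?_ hr (mem_Sp rfl)
    rintro a ⟨ha1, ha2⟩ b rfl
    refine ⟨fun j hj hjk => ?_, ?_, fun j hj => ?_⟩
    · rw [Finsupp.add_apply, ha1 j hj, Finsupp.single_apply, if_neg (Ne.symm hjk), add_zero]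
    · rw [Finsupp.add_apply, ha1 k hkJ, Finsupp.single_apply, if_pos rfl, zero_add]
      exact hi
    · rw [Finsupp.add_apply, Finsupp.single_apply, if_neg, add_zero]
      · exact ha2 j
      · rintro rfl
        exact hkJ hj
  obtain ⟨r, hr⟩ := h1
  refine ⟨p.leadingCoeff, p.natDegree, r, p.leadingCoeff.2, hl, ?_, ?_⟩
  · by_contra hd
    have hd0 : p.natDegree = 0 := by omega
    rw [hd0, Finset.sum_range_zero, zero_add, pow_zero, hsmul, mul_one] at hpx
    apply hl
    rw [Polynomial.leadingCoeff, hd0]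
    exact hpx
  · have h2 : (p.leadingCoeff : F) * x k ^ p.natDegree =
        -∑ i ∈ range p.natDegree, p.coeff i • x k ^ i := by
      rw [hsmul] at hpx
      rw [Polynomial.leadingCoeff]
      linear_combination hpx
    rw [h2]
    exact Submodule.neg_mem _ hr

/-- a common denominator -/
theorem common (n : ℕ) (J : Finset ℕ)
    (hJ : ∀ k, k ≤ n → k ∉ J → IsAlgebraic (Algebra.adjoin ℚ (x '' (J : Set ℕ))) (x k)) :
    ∃ (q : F) (e : ℕ → ℕ) (D : ℕ), q ≠ 0 ∧ q ∈ Sp x (Vs J D) ∧ ∀ k, k ≤ n → k ∉ J →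
      1 ≤ e k ∧ q * x k ^ e k ∈ Sp x (Rs J k (e k) D) := by
  classical
  have h : ∀ k, ∃ (q : F) (e r : ℕ), q ∈ Algebra.adjoin ℚ (x '' (J : Set ℕ)) ∧ q ≠ 0 ∧
      (k ≤ n → k ∉ J → 1 ≤ e ∧ q * x k ^ e ∈ Sp x (Rs J k e r)) := by
    intro k
    by_cases hk : k ≤ n ∧ k ∉ J
    · obtain ⟨q, e, r, h1, h2, h3, h4⟩ := rel J k hk.2 (hJ k hk.1 hk.2)
      exact ⟨q, e, r, h1, h2, fun _ _ => ⟨h3, h4⟩⟩
    · exact ⟨1, 0, 0, one_mem _, one_ne_zero, fun h5 h6 => absurd ⟨h5, h6⟩ hk⟩
  choose q e r h1 h2 h3 using h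
  set Q := ∏ k ∈ range (n + 1), q k with hQ
  have hQa : Q ∈ Algebra.adjoin ℚ (x '' (J : Set ℕ)) := Subalgebra.prod_mem _ fun k _ => h1 k
  obtain ⟨D0, hD0⟩ := adj J hQa
  have h4 : ∀ k, ∃ D, k ≤ n → k ∉ J → Q * x k ^ e k ∈ Sp x (Rs J k (e k) D) := by
    intro k
    by_cases hk : k ≤ n ∧ k ∉ J
    · have h5 : Q = (∏ j ∈ (range (n + 1)).erase k, q j) * q k := by
        rw [hQ, mul_comm]
        exact (Finset.mul_prod_erase _ _ (Finset.mem_range.2 (by omega))).symm
      have h6 : (∏ j ∈ (range (n + 1)).erase k, q j) ∈ Algebra.adjoin ℚ (x '' (J : Set ℕ)) :=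
        Subalgebra.prod_mem _ fun j _ => h1 j
      obtain ⟨s, hs⟩ := adj J h6
      refine ⟨s + r k, fun _ _ => ?_⟩
      rw [h5, mul_assoc]
      refine mul_mem ?_ hs (h3 k hk.1 hk.2).2
      rintro a ⟨ha1, ha2⟩ b ⟨hb1, hb2, hb3⟩
      refine ⟨fun j hj hjk => ?_, ?_, fun j hj => ?_⟩
      · rw [Finsupp.add_apply, ha1 j hj, hb1 j hj hjk]
      · rw [Finsupp.add_apply, ha1 k hk.2, zero_add]
        exact hb2
      · exact Nat.add_le_add (ha2 j) (hb3 j hj)
    · exact ⟨0, fun h5 h6 => absurd ⟨h5, h6⟩ hk⟩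
  choose D hD using h4
  refine ⟨Q, e, max D0 ((range (n + 1)).sup D), ?_, Vs_mono J (le_max_left _ _) hD0,
    fun k hk hkJ => ⟨(h3 k hk hkJ).1, ?_⟩⟩
  · rw [hQ, Finset.prod_ne_zero_iff]
    exact fun k _ => h2 k
  · exact Rs_mono J k (e k) ((Finset.le_sup (Finset.mem_range.2 (by omega))).trans
      (le_max_right _ _)) (hD k hk hkJ)

section step

variable {n : ℕ} {J : Finset ℕ} (hJn : ∀ k ∈ J, k ≤ n) {q : F} {e : ℕ → ℕ} {D : ℕ}
  (hq : q ∈ Sp x (Vs J D))
  (he : ∀ k, k ≤ n → k ∉ J → 1 ≤ e k ∧ q * x k ^ e k ∈ Sp x (Rs J k (e k) D))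

include hJn hq

theorem q_mul {r : ℕ} {w : F} (hw : w ∈ Sp x (Ws n J e r)) :
    q * w ∈ Sp x (Ws n J e (r + (D + 1))) := by
  refine mul_mem ?_ hq hw
  rintro a ⟨ha1, ha2⟩ b ⟨hb1, hb2, hb3⟩
  refine ⟨fun k hk => ?_, fun k hk => ?_, fun k hk hkJ => ?_⟩
  · rw [Finsupp.add_apply, hb1 k hk, ha1 k, zero_add]
    intro hkJ
    have := hJn k hkJ
    omega
  · rw [Finsupp.add_apply]
    have h1 := ha2 k
    have h2 := hb2 k hk
    omega
  · rw [Finsupp.add_apply, ha1 k hkJ, zero_add]
    exact hb3 k hk hkJ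

include he

theorem step {r k : ℕ} (hk : k ≤ n) {w : F} (hw : w ∈ Sp x (Ws n J e r)) :
    q * (x k * w) ∈ Sp x (Ws n J e (r + (D + 1))) := by
  unfold Sp at hw
  induction hw using Submodule.span_induction with
  | zero => rw [mul_zero, mul_zero]; exact Submodule.zero_mem _
  | add u v _ _ hu hv => rw [mul_add, mul_add]; exact Submodule.add_mem _ hu hv
  | smul c u _ hu =>
    rw [mul_smul_comm, mul_smul_comm]
    exact Submodule.smul_mem _ _ hu
  | mem w hw =>
    obtain ⟨a, ⟨ha1, ha2, ha3⟩, rfl⟩ := hw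
    by_cases hkJ : k ∈ J
    · have h1 : x k * xm x a = xm x (a + Finsupp.single k 1) := by
        rw [xm_add, xm_single, pow_one, mul_comm]
      rw [h1]
      refine mul_mem (G' := {a + Finsupp.single k 1}) ?_ hq (mem_Sp rfl)
      rintro b ⟨hb1, hb2⟩ c rfl
      refine ⟨fun j hj => ?_, fun j hj => ?_, fun j hj hjJ => ?_⟩
      · rw [Finsupp.add_apply, Finsupp.add_apply, ha1 j hj,
          hb1 j (fun hjJ => by have := hJn j hjJ; omega), Finsupp.single_apply, if_neg (by omega),
          add_zero, add_zero]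
      · rw [Finsupp.add_apply, Finsupp.add_apply, Finsupp.single_apply]
        have h2 := ha2 j hj
        have h3 := hb2 j
        split_ifs <;> omega
      · rw [Finsupp.add_apply, Finsupp.add_apply, hb1 j hjJ, Finsupp.single_apply, if_neg]
        · have := ha3 j hj hjJ
          omega
        · rintro rfl
          exact hjJ hkJ
    · by_cases hlt : a k + 1 < e k
      · have h1 : x k * xm x a = xm x (a + Finsupp.single k 1) := by
          rw [xm_add, xm_single, pow_one, mul_comm]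
        rw [h1]
        refine mul_mem (G' := {a + Finsupp.single k 1}) ?_ hq (mem_Sp rfl)
        rintro b ⟨hb1, hb2⟩ c rfl
        refine ⟨fun j hj => ?_, fun j hj => ?_, fun j hj hjJ => ?_⟩
        · rw [Finsupp.add_apply, Finsupp.add_apply, ha1 j hj,
            hb1 j (fun hjJ => by have := hJn j hjJ; omega), Finsupp.single_apply, if_neg (by omega),
          add_zero, add_zero]
        · rw [Finsupp.add_apply, Finsupp.add_apply, Finsupp.single_apply, if_neg]
          · have h2 := ha2 j hj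
            have h3 := hb2 j
            omega
          · rintro rfl
            exact hkJ hj
        · rw [Finsupp.add_apply, Finsupp.add_apply, hb1 j hjJ, Finsupp.single_apply]
          have := ha3 j hj hjJ
          split_ifs with hjk
          · subst hjk
            omega
          · omega
      · have h1 : a k + 1 = e k := by
          have := ha3 k hk hkJ
          omega
        have h2 : x k * xm x a = x k ^ e k * xm x (a.erase k) := by
          conv_lhs => rw [← Finsupp.erase_add_single k a, xm_add, xm_single]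
          rw [← h1, pow_succ]
          ring
        rw [h2, ← mul_assoc]
        refine mul_mem (G' := {a.erase k}) ?_ (he k hk hkJ).2 (mem_Sp rfl)
        rintro b ⟨hb1, hb2, hb3⟩ c rfl
        refine ⟨fun j hj => ?_, fun j hj => ?_, fun j hj hjJ => ?_⟩
        · rw [Finsupp.add_apply, hb1 j, Finsupp.erase_ne (by omega), ha1 j hj]
          · intro hjJ
            have := hJn j hjJ
            omega
          · omega
        · rw [Finsupp.add_apply, Finsupp.erase_ne]
          · have h3 := ha2 j hj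
            have h4 := hb3 j hj
            omega
          · rintro rfl
            exact hkJ hj
        · rw [Finsupp.add_apply]
          by_cases hjk : j = k
          · subst hjk
            rw [Finsupp.erase_same, add_zero]
            exact hb2
          · rw [hb1 j hjJ hjk, zero_add, Finsupp.erase_ne hjk]
            exact ha3 j hj hjJ

theorem pow_mul_mem (m : ℕ) : ∀ b : Mon, IsLow n b → wt b ≤ m →
    q ^ m * xm x b ∈ Sp x (Ws n J e (m * (D + 1))) := by
  induction m with
  | zero =>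
    intro b _ hb
    have hb0 : b = 0 := by
      ext k
      have h1 := le_wt b k
      have h2 := (bounds hb).2 k
      simpa using h2
    rw [hb0, pow_zero, one_mul]
    exact mem_Sp ⟨fun k _ => rfl, fun k _ => Nat.zero_le _, fun k hk hkJ => (he k hk hkJ).1⟩
  | succ m ih =>
    intro b hlow hb
    have e1 : (m + 1) * (D + 1) = m * (D + 1) + (D + 1) := by ring
    rw [e1]
    rcases b.support.eq_empty_or_nonempty with h0 | ⟨k, hk⟩
    · rw [Finsupp.support_eq_empty] at h0
      subst h0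
      rw [pow_succ', mul_assoc]
      exact q_mul hJn hq (ih 0 (fun _ _ => rfl) (by rw [wt_zero]; omega))
    · have hkn : k ≤ n := by
        by_contra hc
        exact (Finsupp.mem_support_iff.1 hk) (hlow k (by omega))
      have hi3 : 1 ≤ b k := Nat.one_le_iff_ne_zero.2 (Finsupp.mem_support_iff.1 hk)
      have e2 : b - Finsupp.single k 1 + Finsupp.single k 1 = b := by
        ext j
        rw [Finsupp.add_apply, Finsupp.tsub_apply, Finsupp.single_apply]
        split_ifs with hj
        · subst hj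
          omega
        · omega
      have e3 : wt (b - Finsupp.single k 1) + (2 * k + 1) = wt b := by
        conv_rhs => rw [← e2]
        rw [wt_add, wt_single, one_mul]
      have h1 := ih (b - Finsupp.single k 1) (fun j hj => by
        rw [Finsupp.tsub_apply, hlow j hj, Nat.zero_sub]) (by omega)
      have h2 : q ^ (m + 1) * xm x b = q * (x k * (q ^ m * xm x (b - Finsupp.single k 1))) := by
        conv_lhs => rw [← e2]
        rw [xm_add, xm_single]
        ring
      rw [h2]
      exact step hJn hq he hkn h1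

end step

theorem hilb (n : ℕ) (J : Finset ℕ) (hJn : ∀ k ∈ J, k ≤ n)
    (hJ : ∀ k, k ≤ n → k ∉ J → IsAlgebraic (Algebra.adjoin ℚ (x '' (J : Set ℕ))) (x k)) :
    ∃ C : ℕ, ∀ m, ∃ B : Finset F, B.card ≤ C * (m + 1) ^ J.card ∧
      ∀ b : Mon, IsLow n b → wt b ≤ m → xm x b ∈ Submodule.span ℚ (B : Set F) := by
  classical
  obtain ⟨q, e, D, hq0, hq, he⟩ := common n J hJ
  refine ⟨(∏ k ∈ (range (n + 1)).filter (fun k => ¬ k ∈ J), e k) * (D + 2) ^ J.card, fun m => ?_⟩
  let Wf : Finset Mon := (range (n + 1)).finsupp fun k =>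
    if k ∈ J then range (m * (D + 1) + 1) else range (e k)
  refine ⟨Wf.image fun a => (q ^ m)⁻¹ * xm x a, ?_, fun b hb hbm => ?_⟩
  · refine Finset.card_image_le.trans ?_
    rw [Finset.card_finsupp, ← Finset.prod_filter_mul_prod_filter_not (range (n + 1)) (· ∈ J)]
    have h1 : ∏ k ∈ (range (n + 1)).filter (· ∈ J),
        (if k ∈ J then range (m * (D + 1) + 1) else range (e k)).card =
        (m * (D + 1) + 1) ^ J.card := by
      have h2 : (range (n + 1)).filter (· ∈ J) = J := by
        ext k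
        rw [Finset.mem_filter, Finset.mem_range]
        exact ⟨fun h => h.2, fun h => ⟨by have := hJn k h; omega, h⟩⟩
      rw [h2]
      rw [Finset.prod_congr rfl fun k hk => by rw [if_pos hk, Finset.card_range]]
      rw [Finset.prod_const]
    have h3 : ∏ k ∈ (range (n + 1)).filter (fun k => ¬ k ∈ J),
        (if k ∈ J then range (m * (D + 1) + 1) else range (e k)).card =
        ∏ k ∈ (range (n + 1)).filter (fun k => ¬ k ∈ J), e k := by
      refine Finset.prod_congr rfl fun k hk => ?_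
      rw [Finset.mem_filter] at hk
      rw [if_neg hk.2, Finset.card_range]
    rw [h1, h3]
    have h4 : (m * (D + 1) + 1) ^ J.card ≤ (D + 2) ^ J.card * (m + 1) ^ J.card := by
      rw [← mul_pow]
      refine Nat.pow_le_pow_left ?_ _
      nlinarith
    calc _ ≤ ((D + 2) ^ J.card * (m + 1) ^ J.card) *
          ∏ k ∈ (range (n + 1)).filter (fun k => ¬ k ∈ J), e k := Nat.mul_le_mul_right _ h4
      _ = _ := by ring
  · have h1 := pow_mul_mem hJn hq he m b hb hbm
    have h2 : xm x b = (q ^ m)⁻¹ * (q ^ m * xm x b) := by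
      rw [← mul_assoc, inv_mul_cancel₀ (pow_ne_zero _ hq0), one_mul]
    rw [h2]
    have h3 : ∀ w ∈ Sp x (Ws n J e (m * (D + 1))),
        (q ^ m)⁻¹ * w ∈ Submodule.span ℚ ((Wf.image fun a => (q ^ m)⁻¹ * xm x a : Finset F) : Set F) := by
      intro w hw
      unfold Sp at hw
      induction hw using Submodule.span_induction with
      | zero => rw [mul_zero]; exact Submodule.zero_mem _
      | add u v _ _ hu hv => rw [mul_add]; exact Submodule.add_mem _ hu hv
      | smul c u _ hu => rw [mul_smul_comm]; exact Submodule.smul_mem _ _ hu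
      | mem w hw =>
        obtain ⟨a, ⟨ha1, ha2, ha3⟩, rfl⟩ := hw
        refine Submodule.subset_span ?_
        rw [Finset.coe_image]
        refine ⟨a, ?_, rfl⟩
        rw [Finset.mem_coe, Finset.mem_finsupp_iff]
        refine ⟨fun k hk => ?_, fun k hk => ?_⟩
        · rw [Finset.mem_range]
          by_contra hc
          exact (Finsupp.mem_support_iff.1 hk) (ha1 k (by omega))
        · rw [Finset.mem_range] at hk
          split_ifs with hkJ
          · rw [Finset.mem_range]
            have := ha2 k hkJ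
            omega
          · rw [Finset.mem_range]
            exact ha3 k (by omega) hkJ
    exact h3 _ h1

theorem finrank_le (n : ℕ) (J : Finset ℕ) (hJn : ∀ k ∈ J, k ≤ n)
    (hJ : ∀ k, k ≤ n → k ∉ J → IsAlgebraic (Algebra.adjoin ℚ (x '' (J : Set ℕ))) (x k)) :
    ∃ C : ℕ, ∀ N, Module.finrank ℚ (Sp x (mons N : Set Mon)) ≤
      C * ∑ u ∈ high n N, (N - wt u + 1) ^ J.card := by
  classical
  obtain ⟨C, hC⟩ := hilb n J hJn hJ
  choose B hB1 hB2 using hC
  refine ⟨C, fun N => ?_⟩
  let T : Finset F := (high n N).biUnion fun u => (B (N - wt u)).image fun z => xm x u * z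
  have h1 : Sp x (mons N : Set Mon) ≤ Submodule.span ℚ (T : Set F) := by
    unfold Sp
    rw [Submodule.span_le]
    rintro _ ⟨a, ha, rfl⟩
    rw [Finset.mem_coe, mem_mons] at ha
    obtain ⟨u, b, hu, hb, rfl⟩ := split n a
    rw [wt_add] at ha
    rw [xm_add]
    have h2 := hB2 (N - wt u) b hb (by omega)
    have h3 : ∀ z ∈ Submodule.span ℚ (B (N - wt u) : Set F),
        xm x u * z ∈ Submodule.span ℚ (T : Set F) := by
      intro z hz
      induction hz using Submodule.span_induction with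
      | zero => rw [mul_zero]; exact Submodule.zero_mem _
      | add u v _ _ hu hv => rw [mul_add]; exact Submodule.add_mem _ hu hv
      | smul c u _ hu => rw [mul_smul_comm]; exact Submodule.smul_mem _ _ hu
      | mem z hz =>
        refine Submodule.subset_span ?_
        rw [Finset.mem_coe, Finset.mem_biUnion]
        exact ⟨u, mem_high.2 ⟨by omega, hu⟩, Finset.mem_image.2 ⟨z, hz, rfl⟩⟩
    exact h3 _ h2
  calc Module.finrank ℚ (Sp x (mons N : Set Mon))
      ≤ Module.finrank ℚ (Submodule.span ℚ (T : Set F)) := by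
        have : Module.Finite ℚ (Submodule.span ℚ (T : Set F)) := inferInstance
        exact Submodule.finrank_mono h1
    _ ≤ T.card := finrank_span_finset_le_card T
    _ ≤ ∑ u ∈ high n N, ((B (N - wt u)).image fun z => xm x u * z).card := Finset.card_biUnion_le
    _ ≤ ∑ u ∈ high n N, C * (N - wt u + 1) ^ J.card :=
        Finset.sum_le_sum fun u _ => Finset.card_image_le.trans (hB1 _)
    _ = _ := (Finset.mul_sum _ _ _).symm

end Pool.Agent.Q217.ZO
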