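import Pool.Agent.Q217.ZO.Main

/-! The lower bound for the dimension of the span of the monomials of weight at most `N`, and the
number of missing dimensions as a limit. -/

set_option autoImplicit false

open Finset

namespace Pool.Agent.Q217.ZO

variable {F : Type*} [Field F] [Algebra ℚ F] {x : ℕ → F}

theorem sq_card_le (s : Finset ℕ) : s.card * s.card ≤ ∑ k ∈ s, (2 * k + 1) := by
  induction s using Finset.induction_on_max with
  | empty => simp
  | insert a s hs ih =>
    have ha : a ∉ s := fun h => lt_irrefl a (hs a h)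
    have h1 : s.card ≤ a := by
      have h2 : s ⊆ range a := fun k hk => Finset.mem_range.2 (hs k hk)
      simpa using Finset.card_le_card h2
    rw [Finset.card_insert_of_notMem ha, Finset.sum_insert ha]
    nlinarith

theorem card_support_le {N : ℕ} {a : Mon} (h : wt a ≤ N) : a.support.card ≤ Nat.sqrt N := by
  rw [Nat.le_sqrt]
  refine (sq_card_le a.support).trans (le_trans ?_ h)
  rw [wt_eq_sum a a.support subset_rfl]
  refine Finset.sum_le_sum fun k hk => ?_
  have h2 : 1 ≤ a k := Nat.one_le_iff_ne_zero.2 (Finsupp.mem_support_iff.1 hk)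
  nlinarith

/-- the exponent vectors with weight at most `N - y` -/
noncomputable def pm (N y : ℕ) : Finset Mon := (mons N).filter fun a => wt a + y ≤ N

theorem mem_pm {N y : ℕ} {a : Mon} : a ∈ pm N y ↔ wt a + y ≤ N := by
  unfold pm
  rw [Finset.mem_filter, mem_mons]
  omega

theorem pm_zero (N : ℕ) : pm N 0 = mons N := by
  ext a
  rw [mem_pm, mem_mons]
  omega

theorem pm_step (N z : ℕ) (hN : 1 ≤ N) :
    (pm N (z + 4 * Nat.sqrt N)).card * 2 ≤ (pm N z).card := by
  classical
  set L := Nat.sqrt N with hL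
  have hL1 : 1 ≤ L := by
    rw [hL, Nat.le_sqrt]
    omega
  have h1 : (pm N (z + 4 * L) ×ˢ range (2 * L)).card ≤ ((pm N z).sigma fun a => a.support).card := by
    refine Finset.card_le_card_of_injOn
      (fun p : Mon × ℕ => (⟨p.1 + Finsupp.single p.2 1, p.2⟩ : (_ : Mon) × ℕ)) ?_ ?_
    · rintro ⟨a, j⟩ h
      rw [Finset.mem_coe, Finset.mem_product, mem_pm, Finset.mem_range] at h
      rw [Finset.mem_coe, Finset.mem_sigma, mem_pm]
      dsimp only at h ⊢
      refine ⟨?_, ?_⟩
      · rw [wt_add, wt_single]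
        omega
      · rw [Finsupp.mem_support_iff, Finsupp.add_apply, Finsupp.single_apply, if_pos rfl]
        omega
    · rintro ⟨a, j⟩ _ ⟨b, k⟩ _ he
      dsimp only at he
      obtain ⟨h2, h3⟩ := Sigma.mk.inj_iff.1 he
      have h4 : j = k := eq_of_heq h3
      subst h4
      have h5 : a = b := add_right_cancel h2
      rw [h5]
  rw [Finset.card_product, Finset.card_range, Finset.card_sigma] at h1
  have h2 : ∑ a ∈ pm N z, a.support.card ≤ (pm N z).card * L := by
    rw [← smul_eq_mul, ← Finset.sum_const]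
    refine Finset.sum_le_sum fun a ha => card_support_le ?_
    have := mem_pm.1 ha
    omega
  have h3 : (pm N (z + 4 * L)).card * 2 * L ≤ (pm N z).card * L := by
    calc _ = (pm N (z + 4 * L)).card * (2 * L) := by ring
      _ ≤ _ := h1.trans h2
  exact Nat.le_of_mul_le_mul_right h3 hL1

theorem pm_pow (N i : ℕ) (hN : 1 ≤ N) :
    (pm N (4 * Nat.sqrt N * i)).card * 2 ^ i ≤ (mons N).card := by
  induction i with
  | zero => rw [mul_zero, pm_zero, pow_zero, mul_one]
  | succ i ih =>
    have h1 := pm_step N (4 * Nat.sqrt N * i) hN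
    rw [show 4 * Nat.sqrt N * (i + 1) = 4 * Nat.sqrt N * i + 4 * Nat.sqrt N by ring, pow_succ]
    calc _ = (pm N (4 * Nat.sqrt N * i + 4 * Nat.sqrt N)).card * 2 * 2 ^ i := by ring
      _ ≤ (pm N (4 * Nat.sqrt N * i)).card * 2 ^ i := Nat.mul_le_mul_right _ h1
      _ ≤ _ := ih

theorem big_exponent (N k E : ℕ) :
    ((mons N).filter fun a => E ≤ a k).card ≤ (pm N E).card := by
  classical
  refine Finset.card_le_card_of_injOn (fun a => a - Finsupp.single k E) ?_ ?_
  · intro a ha
    rw [Finset.mem_coe, Finset.mem_filter, mem_mons] at ha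
    rw [Finset.mem_coe, mem_pm]
    have e : a - Finsupp.single k E + Finsupp.single k E = a := by
      ext j
      rw [Finsupp.add_apply, Finsupp.tsub_apply, Finsupp.single_apply]
      split_ifs with hj
      · subst hj
        omega
      · omega
    have e2 : wt (a - Finsupp.single k E) + E * (2 * k + 1) = wt a := by
      conv_rhs => rw [← e]
      rw [wt_add, wt_single]
    have e3 : E ≤ E * (2 * k + 1) := Nat.le_mul_of_pos_right _ (by omega)
    show wt (a - Finsupp.single k E) + E ≤ N
    omega
  · intro a ha b hb he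
    rw [Finset.mem_coe, Finset.mem_filter] at ha hb
    ext j
    have h1 := DFunLike.congr_fun he j
    dsimp only at h1
    rw [Finsupp.tsub_apply, Finsupp.tsub_apply, Finsupp.single_apply] at h1
    split_ifs at h1 with hj
    · subst hj
      omega
    · omega

theorem lower' {t : ℕ} (h : ¬ Missing x (t + 1)) (N : ℕ) (hN : 1 ≤ N) :
    (mons N).card ≤ 2 * (4 * Nat.sqrt N * (t + 1)) ^ t * dim x N := by
  classical
  unfold Missing at h
  push Not at h
  obtain ⟨J, hJ, hind, hcard⟩ := h N
  set L := Nat.sqrt N with hL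
  have hL1 : 1 ≤ L := by
    rw [hL, Nat.le_sqrt]
    omega
  set E := 4 * L * (t + 1) with hE
  let G : Finset Mon := (mons N).filter fun a => a.support ⊆ J
  let T : Finset ℕ := range (N + 1) \ J
  have hT : T.card ≤ t := by
    have h1 := Finset.card_sdiff_add_card_eq_card hJ
    rw [Finset.card_range] at h1
    show (range (N + 1) \ J).card ≤ t
    omega
  have h1 : G.card ≤ dim x N :=
    card_le_dim (J : Set ℕ) hind N G (fun a ha => by
      rw [Finset.mem_filter] at ha
      exact_mod_cast ha.2) (Finset.filter_subset _ _)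
  -- the exponent vectors with a large exponent in `T`
  let B : Finset Mon := T.biUnion fun k => (mons N).filter fun a => E ≤ a k
  have hB : B.card * 2 ≤ (mons N).card := by
    have h2 : B.card ≤ T.card * (pm N E).card := by
      refine Finset.card_biUnion_le.trans ?_
      rw [← smul_eq_mul, ← Finset.sum_const]
      exact Finset.sum_le_sum fun k _ => big_exponent N k E
    have h3 : (pm N E).card * 2 ^ (t + 1) ≤ (mons N).card := pm_pow N (t + 1) hN
    have h4 : t ≤ 2 ^ t := Nat.lt_two_pow_self.le
    calc B.card * 2 ≤ T.card * (pm N E).card * 2 := Nat.mul_le_mul_right _ h2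
      _ ≤ 2 ^ t * (pm N E).card * 2 :=
          Nat.mul_le_mul_right _ (Nat.mul_le_mul_right _ (hT.trans h4))
      _ = (pm N E).card * 2 ^ (t + 1) := by ring
      _ ≤ _ := h3
  have h2 : (mons N \ B).card ≤ (G ×ˢ (T.finsupp fun _ => range E)).card := by
    refine Finset.card_le_card_of_injOn
      (fun a => (a.filter (· ∈ J), a.filter (fun k => ¬ k ∈ J))) ?_ ?_
    · intro a ha
      rw [Finset.mem_coe, Finset.mem_sdiff, mem_mons] at ha
      have hb := bounds ha.1
      have h3 := Finsupp.filter_add_filter_not a (· ∈ J)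
      have h4 := wt_add (a.filter (· ∈ J)) (a.filter (fun k => ¬ k ∈ J))
      rw [h3] at h4
      have ha1 := ha.1
      rw [Finset.mem_coe, Finset.mem_product]
      refine ⟨?_, ?_⟩
      · rw [Finset.mem_filter, mem_mons]
        refine ⟨?_, ?_⟩
        · dsimp only
          omega
        · rw [Finsupp.support_filter]
          exact fun k hk => (Finset.mem_filter.1 hk).2
      · rw [Finset.mem_finsupp_iff]
        refine ⟨?_, fun k hk => ?_⟩
        · rw [Finsupp.support_filter]
          intro k hk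
          rw [Finset.mem_filter] at hk
          exact Finset.mem_sdiff.2 ⟨hb.1 hk.1, hk.2⟩
        · rw [Finset.mem_range, Finsupp.filter_apply, if_pos (Finset.mem_sdiff.1 hk).2]
          by_contra hc
          apply ha.2
          rw [Finset.mem_biUnion]
          exact ⟨k, hk, Finset.mem_filter.2 ⟨mem_mons.2 ha.1, by omega⟩⟩
    · intro a _ b _ he
      dsimp only at he
      rw [Prod.mk.injEq] at he
      rw [← Finsupp.filter_add_filter_not a (· ∈ J), ← Finsupp.filter_add_filter_not b (· ∈ J),
        he.1, he.2]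
  rw [Finset.card_product, Finset.card_finsupp, Finset.prod_const, Finset.card_range] at h2
  have h3 : (mons N).card ≤ (mons N \ B).card + B.card := by
    have h4 : mons N ⊆ (mons N \ B) ∪ B := by
      intro a ha
      rw [Finset.mem_union, Finset.mem_sdiff]
      by_cases hc : a ∈ B
      · exact Or.inr hc
      · exact Or.inl ⟨ha, hc⟩
    exact (Finset.card_le_card h4).trans (Finset.card_union_le _ _)
  have hE1 : 1 ≤ E := by
    rw [hE]
    exact Nat.mul_pos (by omega) (by omega)
  have h4 : (mons N \ B).card ≤ dim x N * E ^ t :=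
    h2.trans (Nat.mul_le_mul h1 (Nat.pow_le_pow_right hE1 hT))
  nlinarith

theorem lower_real {t : ℕ} (h : ¬ Missing x (t + 1)) : ∃ C : ℝ, 0 < C ∧ ∀ N : ℕ, 1 ≤ N →
    ((mons N).card : ℝ) ≤ C * √(N : ℝ) ^ t * dim x N := by
  refine ⟨2 * (4 * (t + 1)) ^ t, by positivity, fun N hN => ?_⟩
  have h1 : ((mons N).card : ℝ) ≤ 2 * (4 * Nat.sqrt N * (t + 1)) ^ t * dim x N := by
    exact_mod_cast lower' h N hN
  have h2 : ((Nat.sqrt N : ℕ) : ℝ) ≤ √(N : ℝ) := Real.nat_sqrt_le_real_sqrt
  have h3 : (4 * (Nat.sqrt N : ℝ) * (t + 1)) ^ t ≤ (4 * (t + 1)) ^ t * √(N : ℝ) ^ t := by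
    rw [← mul_pow]
    refine pow_le_pow_left₀ (by positivity) ?_ t
    nlinarith [Nat.cast_nonneg (α := ℝ) t]
  calc ((mons N).card : ℝ) ≤ 2 * (4 * Nat.sqrt N * (t + 1)) ^ t * dim x N := h1
    _ ≤ 2 * ((4 * (t + 1)) ^ t * √(N : ℝ) ^ t) * dim x N := by
        refine mul_le_mul_of_nonneg_right ?_ (Nat.cast_nonneg _)
        linarith
    _ = _ := by ring

theorem dim_pos (N : ℕ) : 0 < dim x N := by
  unfold dim
  have := Sp_finset (x := x) (mons N)
  rw [Module.finrank_pos_iff_exists_ne_zero]
  refine ⟨⟨1, ?_⟩, ?_⟩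
  · rw [← xm_zero x]
    exact mem_Sp (by rw [Finset.mem_coe, mem_mons, wt_zero]; omega)
  · intro h
    exact one_ne_zero (congrArg Subtype.val h)

open Filter Topology

theorem loglog_div : Tendsto (fun N : ℕ => Real.log (Real.log N) / Real.log N) atTop (𝓝 0) := by
  have h1 : Tendsto (fun y : ℝ => Real.log y / y) atTop (𝓝 0) :=
    Real.isLittleO_log_id_atTop.tendsto_div_nhds_zero
  exact h1.comp (Real.tendsto_log_atTop.comp tendsto_natCast_atTop_atTop)

theorem const_div (c : ℝ) : Tendsto (fun N : ℕ => c / Real.log N) atTop (𝓝 0) :=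
  (Real.tendsto_log_atTop.comp tendsto_natCast_atTop_atTop).const_div_atTop c

/-- lower bound for the exponent -/
theorem exp_lower {t : ℕ} (h : Missing x t) : ∃ f : ℕ → ℝ, Tendsto f atTop (𝓝 ((t : ℝ) / 2)) ∧
    ∀ N : ℕ, 3 ≤ N → f N ≤ Real.log ((mons N).card / dim x N) / Real.log N := by
  obtain ⟨C, hC, hb⟩ := upper_real h
  refine ⟨fun N => (t : ℝ) / 2 - t * (Real.log (Real.log N) / Real.log N) -
    Real.log C / Real.log N, ?_, fun N hN => ?_⟩
  · have h1 := ((tendsto_const_nhds (x := (t : ℝ) / 2)).sub (loglog_div.const_mul (t : ℝ))).sub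
      (const_div (Real.log C))
    simpa using h1
  · have hN0 : (0 : ℝ) < N := by exact_mod_cast (by omega : 0 < N)
    have hlog : 0 < Real.log N := Real.log_pos (by exact_mod_cast (by omega : 1 < N))
    have hd : (0 : ℝ) < dim x N := by exact_mod_cast dim_pos N
    have hm : (0 : ℝ) < (mons N).card := by exact_mod_cast card_pos N
    have hs : (0 : ℝ) < √(N : ℝ) := Real.sqrt_pos.2 hN0
    have h1 := hb N (by omega)
    have h2 : (Real.log N / √(N : ℝ)) ^ t * C * (mons N).card = C * (Real.log N / √(N : ℝ)) ^ t *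
      (mons N).card := by ring
    have h3 : (C * (Real.log N / √(N : ℝ)) ^ t)⁻¹ ≤ (mons N).card / dim x N := by
      rw [le_div_iff₀ hd, inv_mul_le_iff₀ (by positivity)]
      exact h1
    have h4 := Real.log_le_log (by positivity) h3
    rw [Real.log_inv, Real.log_mul hC.ne' (by positivity), Real.log_pow,
      Real.log_div hlog.ne' hs.ne', Real.log_sqrt hN0.le] at h4
    rw [le_div_iff₀ hlog]
    calc ((t : ℝ) / 2 - t * (Real.log (Real.log N) / Real.log N) - Real.log C / Real.log N) *
          Real.log N = -(Real.log C + t * (Real.log (Real.log N) - Real.log N / 2)) := by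
          field_simp
          ring
      _ ≤ _ := h4

/-- upper bound for the exponent -/
theorem exp_upper {t : ℕ} (h : ¬ Missing x (t + 1)) :
    ∃ f : ℕ → ℝ, Tendsto f atTop (𝓝 ((t : ℝ) / 2)) ∧
    ∀ N : ℕ, 3 ≤ N → Real.log ((mons N).card / dim x N) / Real.log N ≤ f N := by
  obtain ⟨C, hC, hb⟩ := lower_real h
  refine ⟨fun N => (t : ℝ) / 2 + Real.log C / Real.log N, ?_, fun N hN => ?_⟩
  · have h1 := (tendsto_const_nhds (x := (t : ℝ) / 2)).add (const_div (Real.log C))
    simpa using h1
  · have hN0 : (0 : ℝ) < N := by exact_mod_cast (by omega : 0 < N)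
    have hlog : 0 < Real.log N := Real.log_pos (by exact_mod_cast (by omega : 1 < N))
    have hd : (0 : ℝ) < dim x N := by exact_mod_cast dim_pos N
    have hm : (0 : ℝ) < (mons N).card := by exact_mod_cast card_pos N
    have hs : (0 : ℝ) < √(N : ℝ) := Real.sqrt_pos.2 hN0
    have h1 := hb N (by omega)
    have h3 : ((mons N).card : ℝ) / dim x N ≤ C * √(N : ℝ) ^ t := by
      rw [div_le_iff₀ hd]
      exact h1
    have h4 := Real.log_le_log (by positivity) h3
    rw [Real.log_mul hC.ne' (by positivity), Real.log_pow, Real.log_sqrt hN0.le] at h4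
    rw [div_le_iff₀ hlog]
    calc _ ≤ _ := h4
      _ = ((t : ℝ) / 2 + Real.log C / Real.log N) * Real.log N := by
          field_simp
          ring

theorem tendsto_exponent {t : ℕ} (h : Missing x t) (h' : ¬ Missing x (t + 1)) :
    Tendsto (fun N : ℕ => Real.log ((mons N).card / dim x N) / Real.log N) atTop
      (𝓝 ((t : ℝ) / 2)) := by
  obtain ⟨f, hf, hf'⟩ := exp_lower h
  obtain ⟨g, hg, hg'⟩ := exp_upper h'
  refine tendsto_of_tendsto_of_tendsto_of_le_of_le' hf hg ?_ ?_
  · filter_upwards [eventually_ge_atTop 3] with N hN using hf' N hN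
  · filter_upwards [eventually_ge_atTop 3] with N hN using hg' N hN

theorem tendsto_exponent_atTop (h : ∀ t, Missing x t) :
    Tendsto (fun N : ℕ => Real.log ((mons N).card / dim x N) / Real.log N) atTop atTop := by
  rw [tendsto_atTop]
  intro b
  obtain ⟨t, ht⟩ := exists_nat_gt (2 * b)
  obtain ⟨f, hf, hf'⟩ := exp_lower (h t)
  have h1 : b < (t : ℝ) / 2 := by linarith
  filter_upwards [hf.eventually (lt_mem_nhds h1), eventually_ge_atTop 3] with N hN hN3
  exact hN.le.trans (hf' N hN3)

theorem missing_zero : Missing x 0 := ⟨0, fun J hJ _ => by simpa using Finset.card_le_card hJ⟩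

theorem missing_anti {s t : ℕ} (hst : s ≤ t) (h : Missing x t) : Missing x s := by
  obtain ⟨n, hn⟩ := h
  exact ⟨n, fun J hJ hi => by have := hn J hJ hi; omega⟩

end Pool.Agent.Q217.ZO
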