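import Pool.Agent.Q217.ZO.Hilb

/-! The dimension of the span of the monomials of weight at most `N` and the number of missing
dimensions. -/

set_option autoImplicit false

open Finset

namespace Pool.Agent.Q217.ZO

variable {F : Type*} [Field F] [Algebra ℚ F] (x : ℕ → F)

/-- at least `t` dimensions are missing among `x_0, …, x_n` for some `n` -/
def Missing (t : ℕ) : Prop := ∃ n : ℕ, ∀ J : Finset ℕ, J ⊆ range (n + 1) →
  AlgebraicIndepOn ℚ x (J : Set ℕ) → J.card + t ≤ n + 1

/-- the dimension of the span of the monomials of weight `≤ N` -/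
noncomputable def dim (N : ℕ) : ℕ := Module.finrank ℚ (Sp x (mons N : Set Mon))

variable {x}

theorem Sp_finset (G : Finset Mon) : Module.Finite ℚ (Sp x (G : Set Mon)) := by
  classical
  unfold Sp
  rw [← Finset.coe_image]
  infer_instance

theorem dim_le (N : ℕ) : dim x N ≤ (mons N).card := by
  classical
  unfold dim Sp
  rw [← Finset.coe_image]
  exact (finrank_span_finset_le_card _).trans Finset.card_image_le

theorem exists_max {t : ℕ} (h : Missing x t) : ∃ (n : ℕ) (J : Finset ℕ), (∀ k ∈ J, k ≤ n) ∧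
    J.card + t ≤ n + 1 ∧
    ∀ k, k ≤ n → k ∉ J → IsAlgebraic (Algebra.adjoin ℚ (x '' (J : Set ℕ))) (x k) := by
  classical
  obtain ⟨n, hn⟩ := h
  let S : Finset (Finset ℕ) := (range (n + 1)).powerset.filter
    fun J => AlgebraicIndepOn ℚ x (J : Set ℕ)
  have hS : S.Nonempty := by
    refine ⟨∅, ?_⟩
    rw [Finset.mem_filter]
    refine ⟨Finset.empty_mem_powerset _, ?_⟩
    rw [Finset.coe_empty]
    exact algebraicIndependent_empty_type_iff.2 (algebraMap ℚ F).injective
  obtain ⟨J, hJ, hmax⟩ := Finset.exists_max_image S Finset.card hS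
  rw [Finset.mem_filter, Finset.mem_powerset] at hJ
  refine ⟨n, J, fun k hk => ?_, hn J hJ.1 hJ.2, fun k hk hkJ => ?_⟩
  · have := hJ.1 hk
    rw [Finset.mem_range] at this
    omega
  · by_contra htr
    have h1 : AlgebraicIndepOn ℚ x ((insert k J : Finset ℕ) : Set ℕ) := by
      rw [Finset.coe_insert]
      exact hJ.2.insert htr
    have h2 := hmax (insert k J) (by
      rw [Finset.mem_filter, Finset.mem_powerset]
      refine ⟨?_, h1⟩
      intro j hj
      rw [Finset.mem_insert] at hj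
      rcases hj with rfl | hj
      · rw [Finset.mem_range]
        omega
      · exact hJ.1 hj)
    rw [Finset.card_insert_of_notMem hkJ] at h2
    omega

theorem upper {t : ℕ} (h : Missing x t) : ∃ n C : ℕ, ∀ K N : ℕ, 1 ≤ K →
    K ^ t * dim x N ≤ C * ((mons N).card + K ^ (n + 1) * (N + 1) ^ (4 * K)) := by
  obtain ⟨n, J, hJn, hcard, hJ⟩ := exists_max h
  obtain ⟨C, hC⟩ := finrank_le n J hJn hJ
  refine ⟨n, C * (2 * cD n ^ (n + 1) + 1), fun K N hK => ?_⟩
  obtain ⟨s, hs⟩ : ∃ s, J.card + (t + s) = n + 1 := ⟨n + 1 - J.card - t, by omega⟩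
  have h1 := key n N K J.card (t + s) hK hs
  have h2 : K ^ t ≤ K ^ (t + s) := Nat.pow_le_pow_right hK (by omega)
  calc K ^ t * dim x N ≤ K ^ (t + s) * (C * ∑ u ∈ high n N, (N - wt u + 1) ^ J.card) :=
        Nat.mul_le_mul h2 (hC N)
    _ = C * (K ^ (t + s) * ∑ u ∈ high n N, (N - wt u + 1) ^ J.card) := by ring
    _ ≤ C * (2 * (cD n ^ (n + 1) * (mons N).card) + K ^ (n + 1) * (N + 1) ^ (4 * K)) :=
        Nat.mul_le_mul_left _ h1
    _ ≤ C * ((2 * cD n ^ (n + 1) + 1) * ((mons N).card + K ^ (n + 1) * (N + 1) ^ (4 * K))) := by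
        refine Nat.mul_le_mul_left _ ?_
        nlinarith [Nat.zero_le (mons N).card,
          Nat.zero_le (cD n ^ (n + 1) * (K ^ (n + 1) * (N + 1) ^ (4 * K)))]
    _ = _ := by ring

theorem exists_pow_le (d : ℕ) : ∃ C : ℕ, ∀ L : ℕ, L ^ d ≤ C * 2 ^ L := by
  obtain ⟨B, hB⟩ := (tendsto_pow_const_div_const_pow_of_one_lt d (r := (2 : ℝ))
    one_lt_two).bddAbove_range
  refine ⟨⌈B⌉₊, fun L => ?_⟩
  have h1 : (L : ℝ) ^ d / 2 ^ L ≤ B := hB ⟨L, rfl⟩
  rw [div_le_iff₀ (by positivity)] at h1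
  have h2 : (L : ℝ) ^ d ≤ ⌈B⌉₊ * 2 ^ L :=
    h1.trans (mul_le_mul_of_nonneg_right (Nat.le_ceil B) (by positivity))
  exact_mod_cast h2

/-- the number `K` of the proof -/
def KK (N : ℕ) : ℕ := Nat.sqrt N / (8 * (Nat.log 2 (N + 1) + 1))

theorem upper' {t : ℕ} (h : Missing x t) : ∃ C : ℕ, ∀ N : ℕ, 1 ≤ KK N →
    KK N ^ t * dim x N ≤ C * (mons N).card := by
  obtain ⟨n, C, hC⟩ := upper h
  obtain ⟨C', hC'⟩ := exists_pow_le (2 * (n + 1))
  refine ⟨C * (1 + C'), fun N hK => ?_⟩
  set K := KK N with hKdef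
  set L := Nat.sqrt N with hL
  set l := Nat.log 2 (N + 1) + 1 with hl
  have hKL : 8 * l * K ≤ L := Nat.mul_div_le L (8 * l)
  have hl1 : 1 ≤ l := by omega
  have hM : 2 ^ L ≤ (mons N).card := two_pow_le L N (Nat.sqrt_le N)
  have h1 : N + 1 ≤ 2 ^ l := (Nat.lt_pow_succ_log_self one_lt_two (N + 1)).le
  have h2 : ((N + 1) ^ (4 * K)) ^ 2 ≤ 2 ^ L := by
    rw [← pow_mul]
    calc (N + 1) ^ (4 * K * 2) ≤ (2 ^ l) ^ (4 * K * 2) := Nat.pow_le_pow_left h1 _
      _ = 2 ^ (8 * l * K) := by rw [← pow_mul]; congr 1; ring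
      _ ≤ 2 ^ L := Nat.pow_le_pow_right (by norm_num) hKL
  have h3 : (K ^ (n + 1)) ^ 2 ≤ C' * 2 ^ L := by
    rw [← pow_mul]
    refine le_trans ?_ (hC' L)
    rw [mul_comm (n + 1) 2]
    refine Nat.pow_le_pow_left ?_ _
    nlinarith
  have h4 : K ^ (n + 1) * (N + 1) ^ (4 * K) ≤ C' * (mons N).card := by
    refine (Nat.pow_le_pow_iff_left (n := 2) (by norm_num)).1 ?_
    rw [mul_pow, mul_pow]
    calc (K ^ (n + 1)) ^ 2 * ((N + 1) ^ (4 * K)) ^ 2 ≤ (C' * 2 ^ L) * 2 ^ L :=
          Nat.mul_le_mul h3 h2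
      _ = C' * (2 ^ L * 2 ^ L) := by ring
      _ ≤ C' ^ 2 * ((mons N).card * (mons N).card) := by
          refine Nat.mul_le_mul ?_ (Nat.mul_le_mul hM hM)
          nlinarith [Nat.zero_le C', Nat.le_mul_self C']
      _ = _ := by ring
  have h5 := hC K N hK
  calc K ^ t * dim x N ≤ _ := h5
    _ ≤ C * ((mons N).card + C' * (mons N).card) := Nat.mul_le_mul_left _ (by omega)
    _ = _ := by ring

theorem sqrt_le (N : ℕ) (hN : 2 ≤ N) :
    √(N : ℝ) ≤ 160 * Real.log N * (max (KK N) 1 : ℕ) := by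
  set K := KK N with hKdef
  set L := Nat.sqrt N with hL
  set l := Nat.log 2 (N + 1) + 1 with hl
  have hL1 : 1 ≤ L := by
    rw [hL, Nat.le_sqrt]
    omega
  have h1 : N + 1 ≤ (L + 1) * (L + 1) := Nat.lt_succ_sqrt N
  have h2 : √(N : ℝ) ≤ 2 * L := by
    rw [Real.sqrt_le_left (by positivity)]
    have h3 : N ≤ (2 * L) ^ 2 := by nlinarith
    exact_mod_cast h3
  have h3 : L ≤ 16 * l * max K 1 := by
    have h4 : L < 8 * l * (K + 1) := Nat.lt_mul_div_succ L (by omega)
    have h5 : K + 1 ≤ 2 * max K 1 := by omega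
    nlinarith
  have hlog2 : (0.6931471803 : ℝ) < Real.log 2 := Real.log_two_gt_d9
  have hlogN : Real.log 2 ≤ Real.log N := Real.log_le_log (by norm_num) (by exact_mod_cast hN)
  have h4 : (l : ℝ) ≤ 5 * Real.log N := by
    have h5 : 2 ^ Nat.log 2 (N + 1) ≤ N + 1 := Nat.pow_log_le_self 2 (by omega)
    have h6 : N + 1 ≤ N ^ 2 := by nlinarith
    have h7 : ((2 : ℝ) ^ Nat.log 2 (N + 1)) ≤ (N : ℝ) ^ 2 := by exact_mod_cast h5.trans h6
    have h8 := Real.log_le_log (by positivity) h7
    rw [Real.log_pow, Real.log_pow] at h8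
    have h9 : (l : ℝ) = (Nat.log 2 (N + 1) : ℝ) + 1 := by
      rw [hl]
      push_cast
      ring
    rw [h9]
    push_cast at h8
    have h10 : (0 : ℝ) ≤ (Nat.log 2 (N + 1) : ℝ) := Nat.cast_nonneg _
    nlinarith
  have h5 : (L : ℝ) ≤ 16 * l * (max K 1 : ℕ) := by exact_mod_cast h3
  have h6 : (0 : ℝ) ≤ (max K 1 : ℕ) := Nat.cast_nonneg _
  calc √(N : ℝ) ≤ 2 * L := h2
    _ ≤ 2 * (16 * l * (max K 1 : ℕ)) := by linarith
    _ ≤ 2 * (16 * (5 * Real.log N) * (max K 1 : ℕ)) := by
        have := mul_le_mul_of_nonneg_right h4 h6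
        linarith
    _ = _ := by ring

theorem upper_real {t : ℕ} (h : Missing x t) : ∃ C : ℝ, 0 < C ∧ ∀ N : ℕ, 2 ≤ N →
    (dim x N : ℝ) ≤ C * (Real.log N / √(N : ℝ)) ^ t * (mons N).card := by
  obtain ⟨C, hC⟩ := upper' h
  refine ⟨160 ^ t * (C + 1), by positivity, fun N hN => ?_⟩
  have hN0 : (0 : ℝ) < √(N : ℝ) := Real.sqrt_pos.2 (by exact_mod_cast (by omega : 0 < N))
  have hlog : 0 < Real.log N := Real.log_pos (by exact_mod_cast hN)
  have h1 : (max (KK N) 1) ^ t * dim x N ≤ (C + 1) * (mons N).card := by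
    rcases Nat.eq_zero_or_pos (KK N) with h0 | h0
    · rw [h0, Nat.max_eq_right (by norm_num), one_pow, one_mul]
      have := dim_le (x := x) N
      nlinarith [Nat.zero_le (C * (mons N).card)]
    · rw [Nat.max_eq_left h0]
      have := hC N h0
      nlinarith
  have h2 : ((max (KK N) 1 : ℕ) : ℝ) ^ t * dim x N ≤ (C + 1) * (mons N).card := by
    exact_mod_cast h1
  have h3 := pow_le_pow_left₀ hN0.le (sqrt_le N hN) t
  rw [mul_pow, mul_pow] at h3
  rw [div_pow]
  have h4 : √(N : ℝ) ^ t * dim x N ≤ 160 ^ t * Real.log N ^ t * ((C + 1) * (mons N).card) := by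
    calc √(N : ℝ) ^ t * dim x N
        ≤ 160 ^ t * Real.log N ^ t * ((max (KK N) 1 : ℕ) : ℝ) ^ t * dim x N :=
          mul_le_mul_of_nonneg_right h3 (Nat.cast_nonneg _)
      _ = 160 ^ t * Real.log N ^ t * (((max (KK N) 1 : ℕ) : ℝ) ^ t * dim x N) := by ring
      _ ≤ _ := mul_le_mul_of_nonneg_left h2 (by positivity)
  have h5 : 160 ^ t * (C + 1 : ℝ) * (Real.log N ^ t / √(N : ℝ) ^ t) * (mons N).card =
      (160 ^ t * Real.log N ^ t * ((C + 1) * (mons N).card)) / √(N : ℝ) ^ t := by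
    field_simp
  rw [h5, le_div_iff₀ (by positivity), mul_comm]
  exact h4

theorem lin_indep (J : Set ℕ) (h : AlgebraicIndepOn ℚ x J) (G : Finset Mon)
    (hG : ∀ a ∈ G, (a.support : Set ℕ) ⊆ J) : LinearIndependent ℚ (fun a : G => xm x (a : Mon)) := by
  classical
  rw [Fintype.linearIndependent_iff]
  intro g hg
  let p : MvPolynomial ℕ ℚ := ∑ a : G, MvPolynomial.monomial (a : Mon) (g a)
  have hp : p ∈ MvPolynomial.supported ℚ J := by
    refine Subalgebra.sum_mem _ fun a _ => ?_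
    rw [MvPolynomial.mem_supported]
    by_cases hga : g a = 0
    · rw [hga, MvPolynomial.monomial_zero, MvPolynomial.vars_0, Finset.coe_empty]
      exact Set.empty_subset _
    · rw [MvPolynomial.vars_monomial hga]
      exact hG a a.2
  have hev : MvPolynomial.aeval x p = 0 := by
    rw [map_sum, ← hg]
    refine Finset.sum_congr rfl fun a _ => ?_
    rw [MvPolynomial.aeval_monomial, Algebra.smul_def]
    rfl
  have h0 : p = 0 := algebraicIndependent_comp_subtype.1 h p hp hev
  intro a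
  have h1 : MvPolynomial.coeff (a : Mon) p = g a := by
    show MvPolynomial.coeff (a : Mon) (∑ b : G, MvPolynomial.monomial (b : Mon) (g b)) = g a
    rw [MvPolynomial.coeff_sum, Finset.sum_eq_single a]
    · rw [MvPolynomial.coeff_monomial, if_pos rfl]
    · intro b _ hb
      rw [MvPolynomial.coeff_monomial, if_neg]
      exact fun he => hb (Subtype.ext he)
    · exact fun h => absurd (Finset.mem_univ a) h
  rw [← h1, h0, MvPolynomial.coeff_zero]

theorem card_le_dim (J : Set ℕ) (h : AlgebraicIndepOn ℚ x J) (N : ℕ) (G : Finset Mon)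
    (hG : ∀ a ∈ G, (a.support : Set ℕ) ⊆ J) (hGN : G ⊆ mons N) : G.card ≤ dim x N := by
  have h1 := finrank_span_eq_card (lin_indep J h G hG)
  rw [Fintype.card_coe] at h1
  rw [← h1]
  have := Sp_finset (x := x) (mons N)
  refine Submodule.finrank_mono (Submodule.span_mono ?_)
  rintro _ ⟨a, rfl⟩
  exact ⟨a, hGN a.2, rfl⟩

theorem lower {t : ℕ} (h : ¬ Missing x (t + 1)) (N : ℕ) :
    (mons N).card ≤ (N + 1) ^ t * dim x N := by
  classical
  unfold Missing at h
  push Not at h
  obtain ⟨J, hJ, hind, hcard⟩ := h N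
  let G : Finset Mon := (mons N).filter fun a => a.support ⊆ J
  let T : Finset ℕ := range (N + 1) \ J
  have hT : T.card ≤ t := by
    have h1 := Finset.card_sdiff_add_card_eq_card hJ
    rw [Finset.card_range] at h1
    show (range (N + 1) \ J).card ≤ t
    omega
  have h1 : G.card ≤ dim x N :=
    card_le_dim (J : Set ℕ) hind N G (fun a ha => by
      rw [Finset.mem_filter] at ha
      exact_mod_cast ha.2) (Finset.filter_subset _ _)
  have h2 : (mons N).card ≤ (G ×ˢ (T.finsupp fun _ => range (N + 1))).card := by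
    refine Finset.card_le_card_of_injOn
      (fun a => (a.filter (· ∈ J), a.filter (fun k => ¬ k ∈ J))) ?_ ?_
    · intro a ha
      rw [Finset.mem_coe, mem_mons] at ha
      have hb := bounds ha
      have h3 := Finsupp.filter_add_filter_not a (· ∈ J)
      have h4 := wt_add (a.filter (· ∈ J)) (a.filter (fun k => ¬ k ∈ J))
      rw [h3] at h4
      rw [Finset.mem_coe, Finset.mem_product]
      refine ⟨?_, ?_⟩
      · rw [Finset.mem_filter, mem_mons]
        refine ⟨?_, ?_⟩
        · dsimp only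
          omega
        · rw [Finsupp.support_filter]
          exact fun k hk => (Finset.mem_filter.1 hk).2
      · rw [Finset.mem_finsupp_iff]
        refine ⟨?_, fun k _ => ?_⟩
        · rw [Finsupp.support_filter]
          intro k hk
          rw [Finset.mem_filter] at hk
          exact Finset.mem_sdiff.2 ⟨hb.1 hk.1, hk.2⟩
        · rw [Finset.mem_range, Finsupp.filter_apply]
          have := hb.2 k
          split_ifs <;> omega
    · intro a _ b _ he
      dsimp only at he
      rw [Prod.mk.injEq] at he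
      rw [← Finsupp.filter_add_filter_not a (· ∈ J), ← Finsupp.filter_add_filter_not b (· ∈ J),
        he.1, he.2]
  rw [Finset.card_product, Finset.card_finsupp, Finset.prod_const, Finset.card_range] at h2
  calc (mons N).card ≤ G.card * (N + 1) ^ T.card := h2
    _ ≤ dim x N * (N + 1) ^ t :=
        Nat.mul_le_mul h1 (Nat.pow_le_pow_right (by omega) hT)
    _ = _ := mul_comm _ _

theorem missing_one (h : ¬ AlgebraicIndependent ℚ x) : Missing x 1 := by
  classical
  by_contra hM
  unfold Missing at hM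
  push Not at hM
  apply h
  refine algebraicIndependent_of_finite_type fun s hs => ?_
  obtain ⟨n, hn⟩ := hs.bddAbove
  obtain ⟨J, hJ, hind, hcard⟩ := hM n
  have h1 : J = range (n + 1) := by
    refine Finset.eq_of_subset_of_card_le hJ ?_
    rw [Finset.card_range]
    omega
  refine AlgebraicIndepOn.mono hind fun k hk => ?_
  rw [h1, Finset.mem_coe, Finset.mem_range]
  have := hn hk
  omega

theorem not_missing (h : AlgebraicIndependent ℚ x) (t : ℕ) (ht : 1 ≤ t) : ¬ Missing x t := by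
  rintro ⟨n, hn⟩
  have h1 := hn (range (n + 1)) subset_rfl
    (AlgebraicIndepOn.mono (AlgebraicIndepOn.univ.2 h) (Set.subset_univ _))
  rw [Finset.card_range] at h1
  omega

theorem card_pos (N : ℕ) : 0 < (mons N).card :=
  Finset.card_pos.2 ⟨0, mem_mons.2 (by rw [wt_zero]; omega)⟩

theorem dim_eq (h : AlgebraicIndependent ℚ x) (N : ℕ) : dim x N = (mons N).card :=
  le_antisymm (dim_le N) (card_le_dim Set.univ (AlgebraicIndepOn.univ.2 h) N (mons N)
    (fun _ _ => Set.subset_univ _) subset_rfl)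

open Filter Topology in
theorem tendsto_zero (h : ¬ AlgebraicIndependent ℚ x) :
    Tendsto (fun N => (dim x N : ℝ) / (mons N).card) atTop (𝓝 0) := by
  obtain ⟨C, hC, hb⟩ := upper_real (missing_one h)
  have h1 : Tendsto (fun N : ℕ => C * (Real.log N / √(N : ℝ)) ^ 1) atTop (𝓝 0) := by
    have h2 : Tendsto (fun y : ℝ => Real.log y / √y) atTop (𝓝 0) := by
      have h3 := (isLittleO_log_rpow_atTop (r := 1 / 2) (by norm_num)).tendsto_div_nhds_zero
      refine h3.congr fun y => ?_
      rw [Real.sqrt_eq_rpow]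
    have h3 := (h2.comp tendsto_natCast_atTop_atTop).const_mul C
    rw [mul_zero] at h3
    refine h3.congr fun N => ?_
    rw [pow_one]
    rfl
  refine squeeze_zero' (Eventually.of_forall fun N => by positivity) ?_ h1
  filter_upwards [eventually_ge_atTop 2] with N hN
  rw [div_le_iff₀ (by exact_mod_cast card_pos N)]
  exact hb N hN

theorem indep_iff : AlgebraicIndependent ℚ x ↔ ∀ N, dim x N = (mons N).card := by
  refine ⟨dim_eq, fun h => ?_⟩
  by_contra hn
  have h1 := tendsto_zero hn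
  have h2 : (fun N => (dim x N : ℝ) / (mons N).card) = fun _ => (1 : ℝ) := by
    funext N
    rw [h N]
    exact div_self (by exact_mod_cast (card_pos N).ne')
  rw [h2] at h1
  exact one_ne_zero (tendsto_nhds_unique tendsto_const_nhds h1)

end Pool.Agent.Q217.ZO
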